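import Pool.Agent.R788.PI.Main

set_option autoImplicit false

namespace Pool.Agent.Results.MP_af08fa_gt.LowerEdge

open Pool.Agent.R788.PI

/-- Answer to Q1: yes. There is `α` in `(0, √(2√3 - 3))` such that at the point `(α, β_α)` of the
lower edge the piecewise isometries `φ, ψ` are bijections of the barrel `Q_α`, they are
independent, and every non-identity element of the group they generate has only finitely many
fixed points. Indeed this holds for all but countably many `α` in that interval. The last part
records that the quadrangle and the lens are disjoint there, so that `φ` is defined by the
partition of the problem.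

Proof idea. On every line of constant distance to the real axis `φ` is an exchange of three
intervals, which gives the bijectivity. A reduced word is, on each of finitely many pieces, a
Moebius map given by a product of matrices which are polynomials in `u`, where
`α = 2u / (1 + u²)` and `β_α = 4u³ / (1 - 4u² - u⁴)`. At `u = √2 - 1`, that is `α = 1/√2` and
`β_α = 1`, the matrices of `τ_β` degenerate to rank one, and a ping pong argument on the circle
at infinity shows that the product is not a scalar matrix; hence it is a scalar matrix for finitely
many `u` only. -/
theorem result :
    (∃ α : ℝ, 0 < α ∧ α < √(2 * √3 - 3) ∧ Good α) ∧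
    {α : ℝ | 0 < α ∧ α < √(2 * √3 - 3) ∧ ¬ Good α}.Countable ∧
    ∀ α : ℝ, 0 < α → α < √(2 * √3 - 3) →
      Disjoint (Q α ∩ H (-betaLow α) (b α)) (Q α \ H α (-b α)) :=
  ⟨exists_good, main, fun _ h0 h => pieces_disjoint h0 h⟩

end Pool.Agent.Results.MP_af08fa_gt.LowerEdge
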